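import Pool.Agent.Y398.KZ.Stm2

/-!
Project KZN (helper398, MP_8ede36_co), job KZN-FIN: from the main inequality to `log log R`.
-/

namespace Pool.Agent.Y805.KZN

open Pool.Agent.Y398.KZN

theorem t_LOWER (h : S_MAINN) : S_LOWER := by
  refine ⟨1 / 1000, by norm_num, ?_⟩
  intro V G f R E Δ hR H
  have hE := H.one_le_E
  have hD : (2 : ℝ) ≤ (Δ : ℝ) := by exact_mod_cast H.two_le
  have hlogD : (1 : ℝ) / 2 ≤ Real.log Δ := by
    have h1 : Real.log 2 ≤ Real.log Δ := Real.log_le_log (by norm_num) hD
    have := Real.log_two_gt_d9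
    linarith
  set a : ℝ := E * Real.log Δ with ha
  have haE : E ≤ 2 * a := by rw [ha]; nlinarith
  have ha1 : 1 / 2 ≤ a := by linarith
  have hR0 : (0 : ℝ) < R := by linarith
  have hlogR : 0 < Real.log R := Real.log_pos (by linarith)
  have hlog4 : Real.log 4 ≤ 1.4 := by
    have : Real.log 4 = 2 * Real.log 2 := by
      rw [show (4 : ℝ) = 2 ^ 2 by norm_num, Real.log_pow]; norm_num
    rw [this]
    have := Real.log_two_lt_d9
    linarith
  have hlog4' : 0 < Real.log 4 := Real.log_pos (by norm_num)
  by_cases hsmall : R < 1024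
  · have h1 : Real.log R ≤ 7 := by
      have h2 : Real.log R ≤ Real.log 1024 := Real.log_le_log hR0 hsmall.le
      have h3 : Real.log 1024 = 5 * Real.log 4 := by
        rw [show (1024 : ℝ) = 4 ^ 5 by norm_num, Real.log_pow]; norm_num
      linarith
    have h2 := Real.log_le_sub_one_of_pos hlogR
    linarith
  · rw [not_lt] at hsmall
    obtain ⟨J, hJ1, hJ2⟩ := exists_nat_pow_near (x := R / 256) (y := 4)
      (by rw [le_div_iff₀ (by norm_num)]; linarith) (by norm_num)
    rw [le_div_iff₀ (by norm_num)] at hJ1
    rw [div_lt_iff₀ (by norm_num)] at hJ2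
    have hJ : 1 ≤ J := by
      by_contra hcon
      have : J = 0 := by omega
      subst this
      norm_num at hJ2
      linarith
    have hJr : (1 : ℝ) ≤ J := by exact_mod_cast hJ
    have hlR : Real.log R ≤ 9 * J := by
      have h1 : Real.log R ≤ Real.log ((4 : ℝ) ^ (J + 5)) := by
        refine Real.log_le_log hR0 ?_
        refine hJ2.le.trans (le_of_eq ?_)
        rw [show J + 5 = (J + 1) + 4 by ring, pow_add _ (J + 1) 4]
        norm_num
      rw [Real.log_pow] at h1
      push_cast at h1
      nlinarith
    have hll : Real.log (Real.log R) ≤ 8 + Real.log J := by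
      have h1 : Real.log (Real.log R) ≤ Real.log (9 * J) := Real.log_le_log hlogR hlR
      rw [Real.log_mul (by norm_num) (by positivity)] at h1
      have h2 := Real.log_le_sub_one_of_pos (show (0 : ℝ) < 9 by norm_num)
      linarith
    have hlJ : Real.log J ≤ 344 * a := by
      by_cases hc : 4 * E ≤ 4 ^ J
      · have hm := h V G f R E Δ J H hJ hc (by linarith)
        have hE0 : (0 : ℝ) < E := by linarith
        have hD0 : (0 : ℝ) < Δ := by linarith
        have h1 : Real.log J ≤ Real.log ((10 : ℝ) ^ 18 * (Δ : ℝ) ^ (6 * E + 4) * E ^ 5) :=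
          Real.log_le_log (by linarith) hm
        rw [Real.log_mul (by positivity) (by positivity), Real.log_mul (by positivity)
          (by positivity), Real.log_pow, Real.log_rpow hD0, Real.log_pow] at h1
        have h2 := Real.log_le_sub_one_of_pos (show (0 : ℝ) < 10 by norm_num)
        have h3 := Real.log_le_sub_one_of_pos hE0
        have h4 : (6 * E + 4) * Real.log Δ ≤ 10 * a := by
          rw [ha]; nlinarith
        push_cast at h1
        linarith
      · rw [not_le] at hc
        have h1 : (J : ℝ) ≤ 4 ^ J := by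
          have : J < 4 ^ J := Nat.lt_pow_self (by norm_num)
          exact_mod_cast this.le
        have h2 := Real.log_le_sub_one_of_pos (show (0 : ℝ) < J by linarith)
        linarith
    linarith

end Pool.Agent.Y805.KZN
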