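import Pool.Agent.Y398.KZ.Stm2

/-!
Project KZN (helper398, MP_8ede36_co), job KZN-SCALE: the pigeonhole over the scales.
-/

namespace Pool.Agent.Y805.KZN

open Pool.Agent.Y398.KZN Finset

theorem t_SCALE : S_SCALE := by
  intro V G f E J K γ hE hJ hK hP
  obtain ⟨Z, hZ⟩ : ∃ Z : Finset (ℤ × ℤ),
      Z = Finset.Ico (0 : ℤ) (4 ^ (J + 2)) ×ˢ Finset.Ico (0 : ℤ) (4 ^ (J + 2)) := ⟨_, rfl⟩
  unfold Paths at hP
  rw [← hZ] at hP ⊢
  set l : ℤ × ℤ → ℕ → ℕ → ℝ :=
    fun z k i => 1 - re' (f (γ z k (i + 1)) - f (γ z k i)) (uv (k / K)) with hl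
  set I : ℕ → Finset ℕ := fun j => Finset.Ico (4 ^ j) (2 * 4 ^ j) with hI
  set Q : Finset ((ℤ × ℤ) × ℕ) := Z ×ˢ Finset.range K with hQ
  have hJ0 : (0 : ℝ) < J := by exact_mod_cast hJ
  have hsub : ∀ j ∈ range J, I j ⊆ range (2 * 4 ^ J) := by
    intro j hj i hi
    rw [hI, Finset.mem_Ico] at hi
    rw [Finset.mem_range] at hj ⊢
    have : (4 : ℕ) ^ j ≤ 4 ^ J := Nat.pow_le_pow_right (by norm_num) hj.le
    omega
  have hnn : ∀ x ∈ Q, ∀ i ∈ range (2 * 4 ^ J), 0 ≤ l x.1 x.2 i := by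
    intro x hx i hi
    rw [hQ, Finset.mem_product] at hx
    exact (hP x.1 hx.1 x.2 (Finset.mem_range.1 hx.2)).2.1 i (Finset.mem_range.1 hi)
  have hdisj : ∀ a ∈ range J, ∀ b ∈ range J, a ≠ b → Disjoint (I a) (I b) := by
    have key : ∀ a b : ℕ, a < b → Disjoint (I a) (I b) := by
      intro a b hab
      rw [Finset.disjoint_left]
      intro i hi hi'
      rw [hI, Finset.mem_Ico] at hi hi'
      have h1 : (4 : ℕ) ^ (a + 1) ≤ 4 ^ b := Nat.pow_le_pow_right (by norm_num) hab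
      rw [pow_succ] at h1
      omega
    intro a _ b _ hab
    rcases lt_or_gt_of_ne hab with h | h
    · exact key a b h
    · exact (key b a h).symm
  have hsum : ∀ x ∈ Q, ∑ j ∈ range J, ∑ i ∈ I j, l x.1 x.2 i ≤ 5 * E := by
    intro x hx
    rw [← Finset.sum_biUnion hdisj]
    refine le_trans (Finset.sum_le_sum_of_subset_of_nonneg (t := range (2 * 4 ^ J))
      (f := fun i => l x.1 x.2 i) ?_ ?_) ?_
    · intro i hi
      rw [Finset.mem_biUnion] at hi
      obtain ⟨j, hj, hij⟩ := hi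
      exact hsub j hj hij
    · intro i hi _
      exact hnn x hx i hi
    · rw [hQ, Finset.mem_product] at hx
      exact (hP x.1 hx.1 x.2 (Finset.mem_range.1 hx.2)).2.2.1
  have htot : ∑ j ∈ range J, ∑ x ∈ Q, ∑ i ∈ I j, l x.1 x.2 i ≤
      ∑ j ∈ range J, (5 * E * (Q.card : ℝ) / J) := by
    rw [Finset.sum_comm]
    rw [Finset.sum_const, Finset.card_range, nsmul_eq_mul, mul_div_cancel₀ _ hJ0.ne']
    refine (Finset.sum_le_sum hsum).trans ?_
    rw [Finset.sum_const, nsmul_eq_mul]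
    linarith
  have hne : (range J).Nonempty := Finset.nonempty_range_iff.2 (by omega)
  obtain ⟨j, hj, hjs⟩ := Finset.exists_le_of_sum_le hne htot
  refine ⟨j, (Finset.mem_range.1 hj).le, ?_⟩
  set τ : ℝ := 10 * E / (J * 4 ^ j) with hτ
  have h4 : (0 : ℝ) < 4 ^ j := by positivity
  have hτ0 : 0 < τ := by positivity
  set A : Finset ((ℤ × ℤ) × ℕ × ℕ) := Z ×ˢ (Finset.range K ×ˢ I j) with hA
  refine ⟨A.filter (fun x => l x.1 x.2.1 x.2.2 ≤ τ), ?_, ?_⟩
  · intro x hx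
    rw [Finset.mem_filter, hA, Finset.mem_product, Finset.mem_product, Finset.mem_range, hI,
      Finset.mem_Ico] at hx
    exact ⟨hx.1.1, hx.1.2.1, hx.1.2.2.1, hx.1.2.2.2, hx.2⟩
  · obtain ⟨m, hm⟩ : ∃ m : ℤ, m = 4 ^ (J + 2) := ⟨_, rfl⟩
    rw [← hm] at hZ
    have hm0 : (0 : ℤ) ≤ m := by rw [hm]; positivity
    have hcI : (I j).card = 4 ^ j := by
      rw [hI]; simp only [Nat.card_Ico]; omega
    have hcZ : (Z.card : ℝ) = 4 ^ (J + 2) * 4 ^ (J + 2) := by
      rw [hZ, Finset.card_product, Int.card_Ico, sub_zero]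
      have : (m.toNat : ℝ) = 4 ^ (J + 2) := by
        have h1 : ((m.toNat : ℤ) : ℝ) = (m : ℝ) := by rw [Int.toNat_of_nonneg hm0]
        have h2 : (m : ℝ) = 4 ^ (J + 2) := by rw [hm]; push_cast; ring
        rw [← h2, ← h1]; norm_cast
      push_cast
      rw [this]
    have hcA : (A.card : ℝ) = Z.card * K * 4 ^ j := by
      rw [hA, Finset.card_product, Finset.card_product, Finset.card_range, hcI]
      push_cast; ring
    have hcQ : (Q.card : ℝ) = Z.card * K := by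
      rw [hQ, Finset.card_product, Finset.card_range]; push_cast; ring
    have hbad : ((A.filter (fun x => ¬ l x.1 x.2.1 x.2.2 ≤ τ)).card : ℝ) * τ ≤
        5 * E * (Q.card : ℝ) / J := by
      refine le_trans ?_ hjs
      have h1 : ((A.filter (fun x => ¬ l x.1 x.2.1 x.2.2 ≤ τ)).card : ℝ) * τ ≤
          ∑ x ∈ A.filter (fun x => ¬ l x.1 x.2.1 x.2.2 ≤ τ), l x.1 x.2.1 x.2.2 := by
        rw [← nsmul_eq_mul]
        refine Finset.card_nsmul_le_sum _ _ _ ?_
        intro x hx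
        exact (not_le.1 (Finset.mem_filter.1 hx).2).le
      have h2 : ∑ x ∈ A.filter (fun x => ¬ l x.1 x.2.1 x.2.2 ≤ τ), l x.1 x.2.1 x.2.2 ≤
          ∑ x ∈ A, l x.1 x.2.1 x.2.2 := by
        refine Finset.sum_le_sum_of_subset_of_nonneg (Finset.filter_subset _ _) ?_
        intro x hx _
        rw [hA, Finset.mem_product, Finset.mem_product] at hx
        exact hnn (x.1, x.2.1) (by rw [hQ, Finset.mem_product]; exact ⟨hx.1, hx.2.1⟩) x.2.2
          (hsub j hj hx.2.2)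
      have h3 : ∑ x ∈ A, l x.1 x.2.1 x.2.2 = ∑ x ∈ Q, ∑ i ∈ I j, l x.1 x.2 i := by
        rw [hA, hQ, Finset.sum_product, Finset.sum_product]
        refine Finset.sum_congr rfl fun z _ => ?_
        rw [Finset.sum_product]
      linarith
    have hcard : ((A.filter (fun x => l x.1 x.2.1 x.2.2 ≤ τ)).card : ℝ) +
        ((A.filter (fun x => ¬ l x.1 x.2.1 x.2.2 ≤ τ)).card : ℝ) = A.card := by
      have := Finset.card_filter_add_card_filter_not (s := A)
        (fun x : (ℤ × ℤ) × ℕ × ℕ => l x.1 x.2.1 x.2.2 ≤ τ)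
      exact_mod_cast this
    have hbad2 : ((A.filter (fun x => ¬ l x.1 x.2.1 x.2.2 ≤ τ)).card : ℝ) ≤
        (Q.card : ℝ) * 4 ^ j / 2 := by
      by_contra hcon
      rw [not_le] at hcon
      have h1 : (Q.card : ℝ) * 4 ^ j / 2 * τ <
          ((A.filter (fun x => ¬ l x.1 x.2.1 x.2.2 ≤ τ)).card : ℝ) * τ :=
        mul_lt_mul_of_pos_right hcon hτ0
      have h2 : (Q.card : ℝ) * 4 ^ j / 2 * τ = 5 * E * (Q.card : ℝ) / J := by
        rw [hτ]
        field_simp
        ring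
      linarith
    rw [hcQ] at hbad2
    rw [hcA] at hcard
    rw [← hcZ]
    linarith

end Pool.Agent.Y805.KZN
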